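import Pool.Agent.H189R2.Iid.Gen
import Pool.Agent.H189R2.Lev.Points

/-! Perturbing a point set into general position. -/

set_option autoImplicit false

namespace Pool.Agent.H189R2.Sub

open Finset MeasureTheory Filter Pool.Agent.H189R2.Lev Pool.Agent.H189R2.Iid
open scoped ENNReal Topology

/-- an event that is null in one coordinate is null -/
theorem null_coord' {X : Type*} [MeasurableSpace X] {n : ℕ} {ν : Fin n → Measure X}
    [∀ i, IsProbabilityMeasure (ν i)] (l : Fin n)
    {s : Set (Fin n → X)} (hs : MeasurableSet s)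
    (h : ∀ P, ν l {y | Function.update P l y ∈ s} = 0) :
    Measure.pi ν s = 0 := by
  rw [← lintegral_indicator_one hs, pi_update _ l (measurable_one.indicator hs)]
  have : ∀ P, ∫⁻ y, s.indicator 1 (Function.update P l y) ∂ν l =
      ν l {y | Function.update P l y ∈ s} := by
    intro P
    have h1 : MeasurableSet {y | Function.update P l y ∈ s} := (measurable_update P) hs
    rw [← lintegral_indicator_one h1]
    rfl
  simp [this, h]

theorem ae_GP' {n : ℕ} {ν : Fin n → Measure (ℝ × ℝ)} [∀ i, IsProbabilityMeasure (ν i)]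
    (hν : ∀ i, LN (ν i)) : ∀ᵐ P ∂Measure.pi ν, GP P := by
  have m1 : ∀ i : Fin n, Measurable (fun P : Fin n → ℝ × ℝ => P i) := fun i => measurable_pi_apply i
  have h1 : ∀ᵐ P ∂Measure.pi ν, ∀ i j, i ≠ j → (P i).1 ≠ (P j).1 := by
    rw [ae_all_iff]; intro i
    rw [ae_all_iff]; intro j
    by_cases hij : i = j
    · exact Eventually.of_forall (fun _ h => absurd hij h)
    · have : ∀ᵐ P ∂Measure.pi ν, (P i).1 ≠ (P j).1 := by
        rw [ae_iff]
        simp only [ne_eq, not_not]
        apply null_coord' i (measurableSet_eq_fun (m1 i).fst (m1 j).fst)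
        intro P
        refine measure_mono_null ?_ (hν i 1 0 (P j).1 (Or.inl one_ne_zero))
        intro y hy
        have hy' : (Function.update P i y i).1 = (Function.update P i y j).1 := hy
        rw [Function.update_self, Function.update_of_ne (Ne.symm hij)] at hy'
        show 1 * y.1 + 0 * y.2 = (P j).1
        linarith
      filter_upwards [this] with P hP _
      exact hP
  have h2 : ∀ᵐ P ∂Measure.pi ν, ∀ i j r s, i ≠ j → i ≠ r → i ≠ s →
      (P j).1 < (P i).1 → X2 (P i) (P j) ≠ X2 (P r) (P s) := by
    rw [ae_all_iff]; intro i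
    rw [ae_all_iff]; intro j
    rw [ae_all_iff]; intro r
    rw [ae_all_iff]; intro s
    by_cases hij : i = j
    · exact Eventually.of_forall (fun _ h => absurd hij h)
    by_cases hir : i = r
    · exact Eventually.of_forall (fun _ _ h => absurd hir h)
    by_cases his : i = s
    · exact Eventually.of_forall (fun _ _ _ h => absurd his h)
    have : ∀ᵐ P ∂Measure.pi ν, ¬ ((P j).1 < (P i).1 ∧
        X2 (P i) (P j) = X2 (P r) (P s)) := by
      rw [ae_iff]
      simp only [not_not]
      apply null_coord' i ((measurableSet_lt (m1 j).fst (m1 i).fst).inter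
        (measurableSet_eq_fun (measurable_X2 (m1 i) (m1 j)) (measurable_X2 (m1 r) (m1 s))))
      intro P
      refine measure_mono_null ?_ (hν i (X2 (P r) (P s)) 1
        (X2 (P r) (P s) * (P j).1 + (P j).2) (Or.inr one_ne_zero))
      rintro y ⟨hy1, hy2⟩
      have hy1' : (Function.update P i y j).1 < (Function.update P i y i).1 := hy1
      have hy2' : X2 (Function.update P i y i) (Function.update P i y j) =
        X2 (Function.update P i y r) (Function.update P i y s) := hy2
      rw [Function.update_self, Function.update_of_ne (Ne.symm hij)] at hy1' hy2'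
      rw [Function.update_of_ne (Ne.symm hir), Function.update_of_ne (Ne.symm his)] at hy2'
      show X2 (P r) (P s) * y.1 + 1 * y.2 = X2 (P r) (P s) * (P j).1 + (P j).2
      rw [← hy2']
      have h0 : y.1 - (P j).1 ≠ 0 := by linarith
      unfold X2
      field_simp
      ring
    filter_upwards [this] with P hP _ _ _ h h'
    exact hP ⟨h, h'⟩
  have h3 : ∀ᵐ P ∂Measure.pi ν, ∀ i j r s, j ≠ i → j ≠ r → j ≠ s →
      (P j).1 < (P i).1 → X2 (P i) (P j) ≠ X2 (P r) (P s) := by
    rw [ae_all_iff]; intro i
    rw [ae_all_iff]; intro j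
    rw [ae_all_iff]; intro r
    rw [ae_all_iff]; intro s
    by_cases hij : j = i
    · exact Eventually.of_forall (fun _ h => absurd hij h)
    by_cases hir : j = r
    · exact Eventually.of_forall (fun _ _ h => absurd hir h)
    by_cases his : j = s
    · exact Eventually.of_forall (fun _ _ _ h => absurd his h)
    have : ∀ᵐ P ∂Measure.pi ν, ¬ ((P j).1 < (P i).1 ∧
        X2 (P i) (P j) = X2 (P r) (P s)) := by
      rw [ae_iff]
      simp only [not_not]
      apply null_coord' j ((measurableSet_lt (m1 j).fst (m1 i).fst).inter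
        (measurableSet_eq_fun (measurable_X2 (m1 i) (m1 j)) (measurable_X2 (m1 r) (m1 s))))
      intro P
      refine measure_mono_null ?_ (hν j (X2 (P r) (P s)) 1
        (X2 (P r) (P s) * (P i).1 + (P i).2) (Or.inr one_ne_zero))
      rintro y ⟨hy1, hy2⟩
      have hy1' : (Function.update P j y j).1 < (Function.update P j y i).1 := hy1
      have hy2' : X2 (Function.update P j y i) (Function.update P j y j) =
        X2 (Function.update P j y r) (Function.update P j y s) := hy2
      rw [Function.update_self, Function.update_of_ne (Ne.symm hij)] at hy1' hy2'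
      rw [Function.update_of_ne (Ne.symm hir), Function.update_of_ne (Ne.symm his)] at hy2'
      show X2 (P r) (P s) * y.1 + 1 * y.2 = X2 (P r) (P s) * (P i).1 + (P i).2
      rw [← hy2']
      have h0 : (P i).1 - y.1 ≠ 0 := by linarith
      unfold X2
      field_simp
      ring
    filter_upwards [this] with P hP _ _ _ h h'
    exact hP ⟨h, h'⟩
  filter_upwards [h1, h2, h3] with P hP1 hP2 hP3
  refine ⟨fun i j h => ?_, ?_⟩
  · by_contra hne
    exact hP1 i j hne h
  · intro i j r s hji hsr hX
    have hij : i ≠ j := by
      intro h; rw [h] at hji; exact lt_irrefl _ hji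
    have hi : i = r ∨ i = s := by
      by_contra hcon
      push Not at hcon
      exact hP2 i j r s hij hcon.1 hcon.2 hji hX
    have hj : j = r ∨ j = s := by
      by_contra hcon
      push Not at hcon
      exact hP3 i j r s hij.symm hcon.1 hcon.2 hji hX
    rcases hi with rfl | rfl
    · rcases hj with rfl | rfl
      · exact absurd rfl hij
      · exact ⟨rfl, rfl⟩
    · rcases hj with rfl | rfl
      · exact absurd hji (lt_asymm hsr)
      · exact absurd rfl hij

theorem volume_line (a b c : ℝ) (h : a ≠ 0 ∨ b ≠ 0) :
    (volume : Measure (ℝ × ℝ)) {y | a * y.1 + b * y.2 = c} = 0 := by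
  have hm : MeasurableSet {y : ℝ × ℝ | a * y.1 + b * y.2 = c} :=
    measurableSet_eq_fun ((measurable_fst.const_mul a).add (measurable_snd.const_mul b))
      measurable_const
  by_cases hb : b = 0
  · have ha : a ≠ 0 := by
      rcases h with h | h
      · exact h
      · exact absurd hb h
    have : {y : ℝ × ℝ | a * y.1 + b * y.2 = c} ⊆ {c / a} ×ˢ Set.univ := by
      intro y hy
      have hy' : a * y.1 + b * y.2 = c := hy
      refine ⟨?_, trivial⟩
      show y.1 = c / a
      rw [hb, zero_mul, add_zero] at hy'
      rw [← hy']; field_simp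
    refine measure_mono_null this ?_
    rw [Measure.volume_eq_prod, Measure.prod_prod]
    simp
  · rw [Measure.volume_eq_prod, Measure.measure_prod_null hm]
    filter_upwards with x
    have : Prod.mk x ⁻¹' {y : ℝ × ℝ | a * y.1 + b * y.2 = c} ⊆ {(c - a * x) / b} := by
      intro y hy
      have hy' : a * x + b * y = c := hy
      show y = (c - a * x) / b
      rw [← hy']; field_simp; ring
    exact measure_mono_null this (by simp)

/-- every configuration can be approximated by configurations in general position -/
theorem exists_GP {n : ℕ} (Q : Fin n → ℝ × ℝ) {S : Set (Fin n → ℝ × ℝ)} (hS : S ∈ 𝓝 Q) :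
    ∃ P ∈ S, GP P := by
  rw [nhds_pi, Filter.mem_pi'] at hS
  obtain ⟨I, t, ht, hsub⟩ := hS
  have hex : ∀ i, ∃ s : Set (ℝ × ℝ), IsOpen s ∧ Q i ∈ s ∧ s ⊆ t i ∧ volume s ≠ ⊤ := by
    intro i
    obtain ⟨s, hs, ho, hq⟩ := mem_nhds_iff.mp (Filter.inter_mem (ht i)
      (Metric.ball_mem_nhds (Q i) one_pos))
    refine ⟨s, ho, hq, fun y hy => (hs hy).1, ?_⟩
    exact ne_top_of_le_ne_top (measure_ball_lt_top (x := Q i) (r := 1)).ne
      (measure_mono (fun y hy => (hs hy).2))
  choose s hso hsq hst hsv using hex
  set ν : Fin n → Measure (ℝ × ℝ) := fun i => ProbabilityTheory.cond volume (s i) with hν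
  have hpos : ∀ i, volume (s i) ≠ 0 := fun i => ((hso i).measure_pos volume ⟨Q i, hsq i⟩).ne'
  have hprob : ∀ i, IsProbabilityMeasure (ν i) := fun i =>
    ⟨by
      show ProbabilityTheory.cond volume (s i) Set.univ = 1
      unfold ProbabilityTheory.cond
      simp only [Measure.coe_smul, Pi.smul_apply, MeasurableSet.univ, Measure.restrict_apply,
        Set.univ_inter, smul_eq_mul]
      exact ENNReal.inv_mul_cancel (hpos i) (hsv i)⟩
  have hln : ∀ i, LN (ν i) := by
    intro i a b c hab
    have h0 := volume_line a b c hab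
    show ProbabilityTheory.cond volume (s i) _ = 0
    unfold ProbabilityTheory.cond
    rw [Measure.smul_apply, Measure.restrict_le_self.absolutelyContinuous h0, smul_zero]
  have hin : ∀ᵐ P ∂Measure.pi ν, ∀ i, P i ∈ s i := by
    rw [ae_all_iff]
    intro i
    have : ∀ᵐ y ∂ν i, y ∈ s i := ProbabilityTheory.ae_cond_mem (hso i).measurableSet
    exact (measurePreserving_eval ν i).quasiMeasurePreserving.ae this
  obtain ⟨P, hP1, hP2⟩ := ((ae_GP' hln).and hin).exists
  exact ⟨P, hsub (fun i _ => hst i (hP2 i)), hP1⟩

theorem continuous_orient {n : ℕ} (i j l : Fin n) :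
    Continuous (fun P : Fin n → ℝ × ℝ => orient (P i) (P j) (P l)) := by
  unfold orient
  fun_prop

/-- a perturbation in general position that keeps all non-zero orientations -/
theorem exists_pert {n : ℕ} (Q : Fin n → ℝ × ℝ) : ∃ P : Fin n → ℝ × ℝ, GP P ∧
    ∀ i j l, (0 < orient (Q i) (Q j) (Q l) → 0 < orient (P i) (P j) (P l)) ∧
      (orient (Q i) (Q j) (Q l) < 0 → orient (P i) (P j) (P l) < 0) := by
  have h : ∀ᶠ P in 𝓝 Q, ∀ i j l, (0 < orient (Q i) (Q j) (Q l) → 0 < orient (P i) (P j) (P l)) ∧
      (orient (Q i) (Q j) (Q l) < 0 → orient (P i) (P j) (P l) < 0) := by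
    rw [Filter.eventually_all]; intro i
    rw [Filter.eventually_all]; intro j
    rw [Filter.eventually_all]; intro l
    rw [Filter.eventually_and]
    constructor
    · by_cases h : 0 < orient (Q i) (Q j) (Q l)
      · filter_upwards [(continuous_orient i j l).continuousAt.eventually (lt_mem_nhds h)]
          with P hP _
        exact hP
      · exact Eventually.of_forall (fun _ h' => absurd h' h)
    · by_cases h : orient (Q i) (Q j) (Q l) < 0
      · filter_upwards [(continuous_orient i j l).continuousAt.eventually (gt_mem_nhds h)]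
          with P hP _
        exact hP
      · exact Eventually.of_forall (fun _ h' => absurd h' h)
  obtain ⟨P, hP, hG⟩ := exists_GP Q h
  exact ⟨P, hG, hP⟩

end Pool.Agent.H189R2.Sub
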