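import Pool.Agent.H189R2.Sub.Window
import Pool.Agent.H189R2.Sub.Pert

/-! Halving lines of all subsets of a point set. -/

set_option autoImplicit false

namespace Pool.Agent.H189R2.Sub

open Finset Pool.Agent.H189R2.Lev Pool.Agent.H189R2.Iid

/-- no three of the points are collinear -/
def NC {n : ℕ} (P : Fin n → ℝ × ℝ) : Prop :=
  ∀ i j l, i ≠ j → i ≠ l → j ≠ l → orient (P i) (P j) (P l) ≠ 0

open Classical in
/-- number of halving lines of the subset `A`: pairs of points of `A` whose line has the same
number of points of `A` on either side -/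
noncomputable def hc {n : ℕ} (P : Fin n → ℝ × ℝ) (A : Finset (Fin n)) : ℕ :=
  ((A ×ˢ A).filter (fun q => q.1 < q.2 ∧
    (A.filter (fun l => 0 < orient (P q.1) (P q.2) (P l))).card =
    (A.filter (fun l => orient (P q.1) (P q.2) (P l) < 0)).card)).card

theorem low_iff {p q r : ℝ × ℝ} (h : q.1 < p.1) : r ∈ low p q ↔ 0 < orient p q r := by
  have h0 : 0 < p.1 - q.1 := by linarith
  have hX : (p.1 - q.1) * X2 p q = q.2 - p.2 := by
    unfold X2; rw [mul_div_cancel₀ _ h0.ne']
  have e : orient p q r = (p.1 - q.1) * (Y2 p q - (r.1 * X2 p q + r.2)) := by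
    unfold Y2 orient
    linear_combination (r.1 - p.1) * hX
  constructor
  · intro h1
    have h1' : r.1 * X2 p q + r.2 < Y2 p q := h1
    rw [e]
    exact mul_pos h0 (by linarith)
  · intro h1
    rw [e] at h1
    have := pos_of_mul_pos_right h1 h0.le
    show r.1 * X2 p q + r.2 < Y2 p q
    linarith

theorem orient_swap (p q r : ℝ × ℝ) : orient q p r = -orient p q r := by
  unfold orient; ring

theorem orient_self_left (p q : ℝ × ℝ) : orient p q p = 0 := by
  unfold orient; ring

theorem orient_self_right (p q : ℝ × ℝ) : orient p q q = 0 := by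
  unfold orient; ring

theorem orient_zero {n : ℕ} {P : Fin n → ℝ × ℝ} (hP : GP P) {i j l : Fin n}
    (h : (P j).1 < (P i).1) (h0 : orient (P i) (P j) (P l) = 0) : l = i ∨ l = j := by
  have := E_line (q := (i, j)) hP h (v := l) (by
    have hX : ((P i).1 - (P j).1) * X2 (P i) (P j) = (P j).2 - (P i).2 := by
      unfold X2; rw [mul_div_cancel₀ _ (by linarith : (P i).1 - (P j).1 ≠ 0)]
    have e : orient (P i) (P j) (P l) = ((P i).1 - (P j).1) *
        (Y2 (P i) (P j) - ((P l).1 * X2 (P i) (P j) + (P l).2)) := by
      unfold Y2 orient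
      linear_combination ((P l).1 - (P i).1) * hX
    rw [e] at h0
    rcases mul_eq_zero.mp h0 with h1 | h1
    · linarith
    · unfold E
      simp only
      linarith)
  exact this

theorem GP.nc {n : ℕ} {P : Fin n → ℝ × ℝ} (hP : GP P) : NC P := by
  intro i j l hij hil hjl h
  rcases lt_trichotomy (P i).1 (P j).1 with h1 | h1 | h1
  · have h2 : orient (P j) (P i) (P l) = 0 := by rw [orient_swap, h, neg_zero]
    rcases orient_zero hP h1 h2 with h3 | h3
    · exact hjl h3.symm
    · exact hil h3.symm
  · exact hij (hP.1 _ _ h1)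
  · rcases orient_zero hP h1 h with h3 | h3
    · exact hil h3.symm
    · exact hjl h3.symm

/-- halving lines only depend on the orientations -/
theorem hc_congr {n : ℕ} {P Q : Fin n → ℝ × ℝ} (hQ : NC Q)
    (h : ∀ i j l, (0 < orient (Q i) (Q j) (Q l) → 0 < orient (P i) (P j) (P l)) ∧
      (orient (Q i) (Q j) (Q l) < 0 → orient (P i) (P j) (P l) < 0)) (A : Finset (Fin n)) :
    hc Q A = hc P A := by
  classical
  have key : ∀ i j l, i ≠ j → (0 < orient (Q i) (Q j) (Q l) ↔ 0 < orient (P i) (P j) (P l)) ∧
      (orient (Q i) (Q j) (Q l) < 0 ↔ orient (P i) (P j) (P l) < 0) := by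
    intro i j l hij
    by_cases h1 : i = l
    · subst h1
      simp [orient_self_left]
    by_cases h2 : j = l
    · subst h2
      simp [orient_self_right]
    have h3 := hQ i j l hij h1 h2
    rcases lt_or_gt_of_ne h3 with h4 | h4
    · have h5 := (h i j l).2 h4
      exact ⟨⟨fun h6 => absurd h6 (lt_asymm h4), fun h6 => absurd h6 (lt_asymm h5)⟩,
        ⟨fun _ => h5, fun _ => h4⟩⟩
    · have h5 := (h i j l).1 h4
      exact ⟨⟨fun _ => h5, fun _ => h4⟩,
        ⟨fun h6 => absurd h6 (lt_asymm h4), fun h6 => absurd h6 (lt_asymm h5)⟩⟩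
  unfold hc
  congr 1
  apply filter_congr
  intro q _
  apply and_congr_right
  intro hq
  have e1 : A.filter (fun l => 0 < orient (Q q.1) (Q q.2) (Q l)) =
      A.filter (fun l => 0 < orient (P q.1) (P q.2) (P l)) :=
    filter_congr (fun l _ => (key q.1 q.2 l hq.ne).1)
  have e2 : A.filter (fun l => orient (Q q.1) (Q q.2) (Q l) < 0) =
      A.filter (fun l => orient (P q.1) (P q.2) (P l) < 0) :=
    filter_congr (fun l _ => (key q.1 q.2 l hq.ne).2)
  rw [e1, e2]

open Classical in
/-- halving lines through oriented pairs -/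
theorem hc_T {n : ℕ} {P : Fin n → ℝ × ℝ} (hP : GP P) (A : Finset (Fin n)) :
    hc P A = ((T P).filter (fun q => q.1 ∈ A ∧ q.2 ∈ A ∧
      (A.filter (fun l => 0 < orient (P q.1) (P q.2) (P l))).card =
      (A.filter (fun l => orient (P q.1) (P q.2) (P l) < 0)).card)).card := by
  have hsw : ∀ i j : Fin n, ((A.filter (fun l => 0 < orient (P i) (P j) (P l))).card =
      (A.filter (fun l => orient (P i) (P j) (P l) < 0)).card) →
      ((A.filter (fun l => 0 < orient (P j) (P i) (P l))).card =
      (A.filter (fun l => orient (P j) (P i) (P l) < 0)).card) := by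
    intro i j h
    simp only [orient_swap (P i) (P j), Left.neg_pos_iff, Left.neg_neg_iff]
    exact h.symm
  unfold hc
  apply card_nbij' (fun q => if (P q.2).1 < (P q.1).1 then q else q.swap)
    (fun q => if q.1 < q.2 then q else q.swap)
  · rintro ⟨i, j⟩ hq
    rw [mem_coe, mem_filter, mem_product] at hq
    obtain ⟨⟨h1, h2⟩, h3, h4⟩ := hq
    simp only at h1 h2 h3 h4 ⊢
    rw [mem_coe, mem_filter, mem_T]
    split_ifs with h5
    · exact ⟨h5, h1, h2, h4⟩
    · refine ⟨?_, h2, h1, hsw _ _ h4⟩
      simp only [Prod.fst_swap, Prod.snd_swap]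
      rcases lt_or_eq_of_le (not_lt.mp h5) with h6 | h6
      · exact h6
      · exact absurd (hP.1 _ _ h6) h3.ne
  · rintro ⟨i, j⟩ hq
    rw [mem_coe, mem_filter, mem_T] at hq
    obtain ⟨h1, h2, h3, h4⟩ := hq
    simp only at h1 h2 h3 h4 ⊢
    rw [mem_coe, mem_filter, mem_product]
    split_ifs with h5
    · exact ⟨⟨h2, h3⟩, h5, h4⟩
    · refine ⟨⟨h3, h2⟩, ?_, hsw _ _ h4⟩
      simp only [Prod.fst_swap, Prod.snd_swap]
      rcases lt_or_eq_of_le (not_lt.mp h5) with h6 | h6
      · exact h6
      · rw [h6] at h1; exact absurd h1 (lt_irrefl _)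
  · rintro ⟨i, j⟩ hq
    rw [mem_coe, mem_filter, mem_product] at hq
    obtain ⟨⟨h1, h2⟩, h3, h4⟩ := hq
    simp only at h3 ⊢
    by_cases h5 : (P j).1 < (P i).1
    · simp [h5, h3]
    · simp [h5, not_lt.mpr h3.le]
  · rintro ⟨i, j⟩ hq
    rw [mem_coe, mem_filter, mem_T] at hq
    obtain ⟨h1, h2, h3, h4⟩ := hq
    simp only at h1 ⊢
    by_cases h5 : i < j
    · simp [h5, h1]
    · simp [h5, not_lt.mpr h1.le]

open Classical in
/-- number of subsets that contain `i` and `j` and are balanced between `U` and `V` -/
theorem balanced {n : ℕ} {i j : Fin n} {U V : Finset (Fin n)} (hij : i ≠ j)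
    (hU : ∀ l ∈ U, l ≠ i ∧ l ≠ j) (hV : ∀ l ∈ V, l ≠ i ∧ l ≠ j) (hUV : Disjoint U V)
    (hall : ∀ l, l ≠ i → l ≠ j → l ∈ U ∨ l ∈ V) :
    ((univ : Finset (Finset (Fin n))).filter (fun A => i ∈ A ∧ j ∈ A ∧
      (A ∩ U).card = (A ∩ V).card)).card = (n - 2).choose U.card := by
  have hc : U.card + V.card + 2 = n := by
    have h1 : (univ : Finset (Fin n)) = {i, j} ∪ (U ∪ V) := by
      ext l
      simp only [mem_univ, mem_union, mem_insert, mem_singleton, true_iff]
      by_cases h1 : l = i
      · exact Or.inl (Or.inl h1)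
      by_cases h2 : l = j
      · exact Or.inl (Or.inr h2)
      exact Or.inr (hall l h1 h2)
    have h2 : Disjoint ({i, j} : Finset (Fin n)) (U ∪ V) := by
      rw [disjoint_left]
      intro l hl hl'
      simp only [mem_insert, mem_singleton] at hl
      rcases mem_union.mp hl' with h | h
      · rcases hl with h3 | h3
        · exact (hU l h).1 h3
        · exact (hU l h).2 h3
      · rcases hl with h3 | h3
        · exact (hV l h).1 h3
        · exact (hV l h).2 h3
    have h3 := congrArg card h1
    rw [card_union_of_disjoint h2, card_union_of_disjoint hUV, card_pair hij, card_univ,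
      Fintype.card_fin] at h3
    omega
  have hch : (n - 2).choose U.card = (powersetCard V.card (U ∪ V)).card := by
    rw [card_powersetCard, card_union_of_disjoint hUV]
    have : n - 2 = U.card + V.card := by omega
    rw [this]
    exact (Nat.choose_symm_add)
  rw [hch]
  apply card_nbij' (fun A => (A ∩ U) ∪ (V \ A)) (fun B => insert i (insert j ((B ∩ U) ∪ (V \ B))))
  · intro A hA
    rw [mem_coe, mem_filter] at hA
    obtain ⟨_, h1, h2, h3⟩ := hA
    rw [mem_coe, mem_powersetCard]
    constructor
    · intro l hl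
      rw [mem_union, mem_inter, mem_sdiff] at hl
      rw [mem_union]
      rcases hl with hl | hl
      · exact Or.inl hl.2
      · exact Or.inr hl.1
    · rw [card_union_of_disjoint]
      · have h4 := card_sdiff_add_card_inter V A
        rw [inter_comm V A] at h4
        omega
      · rw [disjoint_left]
        intro l hl hl'
        exact (mem_sdiff.mp hl').2 (mem_inter.mp hl).1
  · intro B hB
    rw [mem_coe, mem_powersetCard] at hB
    obtain ⟨h1, h2⟩ := hB
    rw [mem_coe, mem_filter]
    refine ⟨mem_univ _, mem_insert_self _ _, mem_insert_of_mem (mem_insert_self _ _), ?_⟩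
    have e1 : insert i (insert j ((B ∩ U) ∪ (V \ B))) ∩ U = B ∩ U := by
      ext l
      simp only [mem_inter, mem_insert, mem_union, mem_sdiff]
      constructor
      · rintro ⟨h3 | h3 | h3 | h3, h4⟩
        · exact absurd h3 (hU l h4).1
        · exact absurd h3 (hU l h4).2
        · exact h3
        · exact absurd h3.1 (disjoint_left.mp hUV h4)
      · rintro ⟨h3, h4⟩
        exact ⟨Or.inr (Or.inr (Or.inl ⟨h3, h4⟩)), h4⟩
    have e2 : insert i (insert j ((B ∩ U) ∪ (V \ B))) ∩ V = V \ B := by
      ext l
      simp only [mem_inter, mem_insert, mem_union, mem_sdiff]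
      constructor
      · rintro ⟨h3 | h3 | h3 | h3, h4⟩
        · exact absurd h3 (hV l h4).1
        · exact absurd h3 (hV l h4).2
        · exact absurd h4 (disjoint_left.mp hUV h3.2)
        · exact h3
      · rintro ⟨h3, h4⟩
        exact ⟨Or.inr (Or.inr (Or.inr ⟨h3, h4⟩)), h3⟩
    rw [e1, e2]
    have h3 : B.card = (B ∩ U).card + (B ∩ V).card := by
      rw [← card_union_of_disjoint, ← inter_union_distrib_left, inter_eq_left.mpr h1]
      rw [disjoint_left]
      intro l hl hl'
      exact disjoint_left.mp hUV (mem_inter.mp hl).2 (mem_inter.mp hl').2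
    have h4 := card_sdiff_add_card_inter V B
    rw [inter_comm V B] at h4
    omega
  · intro A hA
    rw [mem_coe, mem_filter] at hA
    obtain ⟨_, h1, h2, h3⟩ := hA
    ext l
    simp only [mem_insert, mem_union, mem_inter, mem_sdiff]
    by_cases h4 : l = i
    · subst h4; simp [h1]
    by_cases h5 : l = j
    · subst h5; simp [h2]
    rcases hall l h4 h5 with h6 | h6
    · have h7 : l ∉ V := disjoint_left.mp hUV h6
      simp [h4, h5, h6, h7]
    · have h7 : l ∉ U := disjoint_right.mp hUV h6
      simp [h4, h5, h6, h7]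
  · intro B hB
    rw [mem_coe, mem_powersetCard] at hB
    obtain ⟨h1, h2⟩ := hB
    ext l
    simp only [mem_insert, mem_union, mem_inter, mem_sdiff]
    by_cases h4 : l = i
    · subst h4
      have h5 : l ∉ U := fun h => (hU l h).1 rfl
      have h6 : l ∉ V := fun h => (hV l h).1 rfl
      have h7 : l ∉ B := fun h => by
        rcases mem_union.mp (h1 h) with h8 | h8
        · exact h5 h8
        · exact h6 h8
      simp [h5, h6, h7]
    by_cases h4' : l = j
    · subst h4'
      have h5 : l ∉ U := fun h => (hU l h).2 rfl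
      have h6 : l ∉ V := fun h => (hV l h).2 rfl
      have h7 : l ∉ B := fun h => by
        rcases mem_union.mp (h1 h) with h8 | h8
        · exact h5 h8
        · exact h6 h8
      simp [h5, h6, h7]
    rcases hall l h4 h4' with h6 | h6
    · have h7 : l ∉ V := disjoint_left.mp hUV h6
      simp [h4, h4', h6, h7]
    · have h7 : l ∉ U := disjoint_right.mp hUV h6
      simp [h4, h4', h6, h7]

open Classical in
/-- **averaging identity**: the total number of halving lines of all subsets -/
theorem avg_eq {n : ℕ} {P : Fin n → ℝ × ℝ} (hP : GP P) :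
    ∑ A : Finset (Fin n), hc P A = ∑ q ∈ T P, (n - 2).choose (lev P q) := by
  simp_rw [hc_T hP, card_filter]
  rw [sum_comm]
  apply sum_congr rfl
  intro q hq
  rw [← card_filter]
  have hq' := mem_T.mp hq
  have hne : q.1 ≠ q.2 := by
    intro h; rw [h] at hq'; exact lt_irrefl _ hq'
  have h := balanced (i := q.1) (j := q.2)
    (U := univ.filter (fun l => 0 < orient (P q.1) (P q.2) (P l)))
    (V := univ.filter (fun l => orient (P q.1) (P q.2) (P l) < 0)) hne
    (by
      intro l hl
      rw [mem_filter] at hl
      constructor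
      · rintro rfl
        rw [orient_self_left] at hl
        exact lt_irrefl _ hl.2
      · rintro rfl
        rw [orient_self_right] at hl
        exact lt_irrefl _ hl.2)
    (by
      intro l hl
      rw [mem_filter] at hl
      constructor
      · rintro rfl
        rw [orient_self_left] at hl
        exact lt_irrefl _ hl.2
      · rintro rfl
        rw [orient_self_right] at hl
        exact lt_irrefl _ hl.2)
    (by
      rw [disjoint_left]
      intro l hl hl'
      exact lt_asymm (mem_filter.mp hl).2 (mem_filter.mp hl').2)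
    (by
      intro l h1 h2
      rcases lt_trichotomy (orient (P q.1) (P q.2) (P l)) 0 with h3 | h3 | h3
      · exact Or.inr (mem_filter.mpr ⟨mem_univ _, h3⟩)
      · rcases orient_zero hP hq' h3 with h4 | h4
        · exact absurd h4 h1
        · exact absurd h4 h2
      · exact Or.inl (mem_filter.mpr ⟨mem_univ _, h3⟩))
  have hl : (univ.filter (fun l => 0 < orient (P q.1) (P q.2) (P l))).card = lev P q := by
    unfold lev
    congr 1
    apply filter_congr
    intro l _
    exact (low_iff hq').symm
  rw [hl] at h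
  rw [← h]
  congr 1
  apply filter_congr
  intro A _
  have e1 : A ∩ univ.filter (fun l => 0 < orient (P q.1) (P q.2) (P l)) =
      A.filter (fun l => 0 < orient (P q.1) (P q.2) (P l)) := by
    ext l; simp
  have e2 : A ∩ univ.filter (fun l => orient (P q.1) (P q.2) (P l) < 0) =
      A.filter (fun l => orient (P q.1) (P q.2) (P l) < 0) := by
    ext l; simp
  rw [e1, e2, card_filter, card_filter]

end Pool.Agent.H189R2.Sub
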