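import Pool.Agent.H189R2.Sub.Lower

/-! Blow-up: from halving lines of one set to the average over subsets of a larger set. -/

set_option autoImplicit false

namespace Pool.Agent.H189R2.Sub

open Finset Pool.Agent.H189R2.Lev Pool.Agent.H189R2.Iid

open Classical in
theorem card_clusters {m : ℕ} (D : Finset (Fin m)) :
    ((univ : Finset (Fin (m * m))).filter (fun z => (finProdFinEquiv.symm z).1 ∈ D)).card =
      m * D.card := by
  have h : (univ : Finset (Fin (m * m))).filter (fun z => (finProdFinEquiv.symm z).1 ∈ D) =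
      (D ×ˢ (univ : Finset (Fin m))).map finProdFinEquiv.toEmbedding := by
    ext z
    simp only [mem_filter, mem_univ, true_and, mem_map_equiv, mem_product, and_true]
  rw [h, card_map, card_product, card_univ, Fintype.card_fin, mul_comm]

theorem sides_nc {n : ℕ} {P : Fin n → ℝ × ℝ} (hP : NC P) {i j : Fin n} (hij : i ≠ j) :
    {l | 0 < orient (P i) (P j) (P l)}.ncard + {l | orient (P i) (P j) (P l) < 0}.ncard + 2 = n := by
  classical
  have e1 : {l | 0 < orient (P i) (P j) (P l)} =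
      ((univ.filter (fun l => 0 < orient (P i) (P j) (P l)) : Finset (Fin n)) : Set (Fin n)) := by
    ext l; simp
  have e2 : {l | orient (P i) (P j) (P l) < 0} =
      ((univ.filter (fun l => orient (P i) (P j) (P l) < 0) : Finset (Fin n)) : Set (Fin n)) := by
    ext l; simp
  rw [e1, e2, Set.ncard_coe_finset, Set.ncard_coe_finset]
  have h1 : (univ : Finset (Fin n)) = (univ.filter (fun l => 0 < orient (P i) (P j) (P l)) ∪
      univ.filter (fun l => orient (P i) (P j) (P l) < 0)) ∪ {i, j} := by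
    ext l
    simp only [mem_univ, mem_union, mem_filter, true_and, mem_insert, mem_singleton, true_iff]
    by_cases h1 : l = i
    · exact Or.inr (Or.inl h1)
    by_cases h2 : l = j
    · exact Or.inr (Or.inr h2)
    have := hP i j l hij (Ne.symm h1) (Ne.symm h2)
    rcases lt_or_gt_of_ne this with h3 | h3
    · exact Or.inl (Or.inr h3)
    · exact Or.inl (Or.inl h3)
  have h2 : Disjoint (univ.filter (fun l => 0 < orient (P i) (P j) (P l)))
      (univ.filter (fun l => orient (P i) (P j) (P l) < 0)) := by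
    rw [disjoint_left]
    intro l hl hl'
    exact lt_asymm (mem_filter.mp hl).2 (mem_filter.mp hl').2
  have h3 : Disjoint (univ.filter (fun l => 0 < orient (P i) (P j) (P l)) ∪
      univ.filter (fun l => orient (P i) (P j) (P l) < 0)) {i, j} := by
    rw [disjoint_right]
    intro l hl hl'
    rw [mem_union, mem_filter, mem_filter] at hl'
    simp only [mem_insert, mem_singleton] at hl
    rcases hl with rfl | rfl
    · rw [orient_self_left] at hl'
      rcases hl' with h | h
      · exact lt_irrefl _ h.2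
      · exact lt_irrefl _ h.2
    · rw [orient_self_right] at hl'
      rcases hl' with h | h
      · exact lt_irrefl _ h.2
      · exact lt_irrefl _ h.2
  have h4 := congrArg card h1
  rw [card_union_of_disjoint h3, card_union_of_disjoint h2, card_pair hij, card_univ,
    Fintype.card_fin] at h4
  omega

theorem lev_ncard {n : ℕ} {P : Fin n → ℝ × ℝ} {q : Fin n × Fin n} (hq : q ∈ T P) :
    lev P q = {l | 0 < orient (P q.1) (P q.2) (P l)}.ncard := by
  classical
  have e1 : {l | 0 < orient (P q.1) (P q.2) (P l)} =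
      ((univ.filter (fun l => P l ∈ low (P q.1) (P q.2)) : Finset (Fin n)) : Set (Fin n)) := by
    ext l
    simp only [Set.mem_ofPred_eq, coe_filter, mem_univ, true_and]
    exact (low_iff (mem_T.mp hq)).symm
  rw [e1, Set.ncard_coe_finset]
  rfl

open Classical in
/-- halving pairs -/
noncomputable def HP {n : ℕ} (P : Fin n → ℝ × ℝ) : Finset (Fin n × Fin n) :=
  univ.filter (fun q => q.1 < q.2 ∧ {l | 0 < orient (P q.1) (P q.2) (P l)}.ncard =
    {l | orient (P q.1) (P q.2) (P l) < 0}.ncard)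

theorem hc_univ {n : ℕ} (P : Fin n → ℝ × ℝ) : hc P univ = (HP P).card := by
  classical
  unfold hc HP
  congr 1
  ext q
  have e1 : {l | 0 < orient (P q.1) (P q.2) (P l)} =
      ((univ.filter (fun l => 0 < orient (P q.1) (P q.2) (P l)) : Finset (Fin n)) :
        Set (Fin n)) := by
    ext l; simp
  have e2 : {l | orient (P q.1) (P q.2) (P l) < 0} =
      ((univ.filter (fun l => orient (P q.1) (P q.2) (P l) < 0) : Finset (Fin n)) :
        Set (Fin n)) := by
    ext l; simp
  rw [mem_filter, mem_filter, e1, e2, Set.ncard_coe_finset, Set.ncard_coe_finset]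
  simp

/-- both sides of a pair of points of the blow-up of a halving pair -/
theorem blow_sides {m : ℕ} {B : Fin m → ℝ × ℝ} (hB : NC B) {P : Fin (m * m) → ℝ × ℝ}
    (hP : NC P)
    (h : ∀ x y z : Fin (m * m), (0 < orient (B (finProdFinEquiv.symm x).1)
        (B (finProdFinEquiv.symm y).1) (B (finProdFinEquiv.symm z).1) →
        0 < orient (P x) (P y) (P z)) ∧
      (orient (B (finProdFinEquiv.symm x).1)
        (B (finProdFinEquiv.symm y).1) (B (finProdFinEquiv.symm z).1) < 0 →
        orient (P x) (P y) (P z) < 0))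
    {q : Fin m × Fin m} (hq : q ∈ HP B) {x y : Fin (m * m)}
    (hx : (finProdFinEquiv.symm x).1 = q.1) (hy : (finProdFinEquiv.symm y).1 = q.2) :
    ∃ g : ℕ, m = 2 * g + 2 ∧
      m * g ≤ {l | 0 < orient (P x) (P y) (P l)}.ncard ∧
      m * g ≤ {l | orient (P x) (P y) (P l) < 0}.ncard ∧
      {l | 0 < orient (P x) (P y) (P l)}.ncard +
        {l | orient (P x) (P y) (P l) < 0}.ncard + 2 = m * m := by
  classical
  unfold HP at hq
  rw [mem_filter] at hq
  obtain ⟨_, hlt, heq⟩ := hq
  have h1 := sides_nc hB hlt.ne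
  have hxy : x ≠ y := by
    rintro rfl
    rw [hx] at hy
    exact hlt.ne hy
  have h2 := sides_nc hP hxy
  refine ⟨{l | 0 < orient (B q.1) (B q.2) (B l)}.ncard, by omega, ?_, ?_, h2⟩
  · have e1 : {l | 0 < orient (B q.1) (B q.2) (B l)} =
        ((univ.filter (fun l => 0 < orient (B q.1) (B q.2) (B l)) : Finset (Fin m)) :
          Set (Fin m)) := by
      ext l; simp
    rw [e1, Set.ncard_coe_finset, ← card_clusters, ← Set.ncard_coe_finset]
    apply Set.ncard_le_ncard _ (Set.toFinite _)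
    intro z hz
    rw [mem_coe, mem_filter, mem_filter] at hz
    apply (h x y z).1
    rw [hx, hy]
    exact hz.2.2
  · have e1 : {l | orient (B q.1) (B q.2) (B l) < 0} =
        ((univ.filter (fun l => orient (B q.1) (B q.2) (B l) < 0) : Finset (Fin m)) :
          Set (Fin m)) := by
      ext l; simp
    rw [heq, e1, Set.ncard_coe_finset, ← card_clusters, ← Set.ncard_coe_finset]
    apply Set.ncard_le_ncard _ (Set.toFinite _)
    intro z hz
    rw [mem_coe, mem_filter, mem_filter] at hz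
    apply (h x y z).2
    rw [hx, hy]
    exact hz.2.2

open Classical in
/-- **blow-up** -/
theorem blow {m : ℕ} {B : Fin m → ℝ × ℝ} (hB : NC B) : ∃ P : Fin (m * m) → ℝ × ℝ, GP P ∧
    Real.exp (-4) / 8 * m * (hc B univ) * 2 ^ (m * m) ≤
      ∑ A : Finset (Fin (m * m)), (hc P A : ℝ) := by
  obtain ⟨P, hP, hs⟩ := exists_pert (fun x : Fin (m * m) => B (finProdFinEquiv.symm x).1)
  refine ⟨P, hP, ?_⟩
  rw [hc_univ]
  rcases (HP B).eq_empty_or_nonempty with h0 | h0
  · rw [h0]
    simp only [card_empty, CharP.cast_eq_zero, mul_zero, zero_mul]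
    positivity
  have hav : (∑ A : Finset (Fin (m * m)), (hc P A : ℝ)) =
      ∑ q ∈ T P, ((m * m - 2).choose (lev P q) : ℝ) := by
    exact_mod_cast avg_eq hP
  rw [hav]
  -- the pairs of the blow-up
  set F : (Fin m × Fin m) × (Fin m × Fin m) → Fin (m * m) × Fin (m * m) := fun u =>
    if (P (finProdFinEquiv (u.1.2, u.2.2))).1 < (P (finProdFinEquiv (u.1.1, u.2.1))).1 then
      (finProdFinEquiv (u.1.1, u.2.1), finProdFinEquiv (u.1.2, u.2.2)) else
      (finProdFinEquiv (u.1.2, u.2.2), finProdFinEquiv (u.1.1, u.2.1)) with hF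
  set S := (HP B) ×ˢ (univ : Finset (Fin m × Fin m)) with hS
  obtain ⟨q₀, hq₀⟩ := h0
  have hlt : ∀ q ∈ HP B, q.1 < q.2 := by
    intro q hq
    unfold HP at hq
    exact (mem_filter.mp hq).2.1
  have hm1 : 0 < m := lt_of_le_of_lt (Nat.zero_le _) q₀.1.2
  obtain ⟨g, hg, _, _, _⟩ := blow_sides hB (GP.nc hP) hs hq₀
    (x := finProdFinEquiv (q₀.1, ⟨0, hm1⟩)) (y := finProdFinEquiv (q₀.2, ⟨0, hm1⟩))
    (by simp) (by simp)
  set M := 2 * (g + 1) * (g + 1) - 1 with hM
  have hM1 : 1 ≤ M := by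
    have : 1 ≤ (g + 1) * (g + 1) := Nat.mul_pos (by omega) (by omega)
    rw [hM, mul_assoc]
    omega
  have hM2 : M + 1 = 2 * (g + 1) * (g + 1) := by
    rw [hM]
    have : 1 ≤ 2 * (g + 1) * (g + 1) := Nat.mul_pos (Nat.mul_pos (by omega) (by omega)) (by omega)
    omega
  have hmm : m * m = 2 * M + 2 := by
    rw [hg]
    have : (2 * g + 2) * (2 * g + 2) = 2 * (M + 1) := by rw [hM2]; ring
    omega
  have hmM : m * m - 2 = 2 * M := by omega
  have hMR : (M : ℝ) + 1 = 2 * ((g : ℝ) + 1) * (g + 1) := by exact_mod_cast hM2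
  have hmR : (m : ℝ) = 2 * g + 2 := by rw [hg]; push_cast; ring
  have hlevel : ∀ q ∈ HP B, ∀ x y : Fin (m * m), (finProdFinEquiv.symm x).1 = q.1 →
      (finProdFinEquiv.symm y).1 = q.2 →
      Real.exp (-4) * 4 ^ M ≤ 2 * Real.sqrt M *
        ((2 * M).choose {l | 0 < orient (P x) (P y) (P l)}.ncard : ℝ) ∧
      Real.exp (-4) * 4 ^ M ≤ 2 * Real.sqrt M *
        ((2 * M).choose {l | 0 < orient (P y) (P x) (P l)}.ncard : ℝ) := by
    intro q hq x y hx hy
    obtain ⟨g', hg', h1, h2, h3⟩ := blow_sides hB (GP.nc hP) hs hq hx hy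
    have hgg : g' = g := by omega
    subst hgg
    have hsw : {l | 0 < orient (P y) (P x) (P l)} = {l | orient (P x) (P y) (P l) < 0} := by
      ext l
      simp only [Set.mem_ofPred_eq]
      rw [orient_swap (P x) (P y), Left.neg_pos_iff]
    rw [hsw]
    set a := {l | 0 < orient (P x) (P y) (P l)}.ncard with ha
    set b := {l | orient (P x) (P y) (P l) < 0}.ncard with hb
    have h3' : a + b = 2 * M := by omega
    have h1' : (2 * (g' : ℝ) + 2) * g' ≤ a := by
      rw [← hmR]; exact_mod_cast h1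
    have h2' : (2 * (g' : ℝ) + 2) * g' ≤ b := by
      rw [← hmR]; exact_mod_cast h2
    have h3R : (a : ℝ) + b = 2 * M := by exact_mod_cast h3'
    have hg0 : (0 : ℝ) ≤ g' := Nat.cast_nonneg _
    have k1 : -(2 * (g' : ℝ) + 1) ≤ (a : ℝ) - M := by nlinarith
    have k2 : (a : ℝ) - M ≤ 2 * g' + 1 := by nlinarith
    have k3 : ((a : ℝ) - M) ^ 2 ≤ (2 * g' + 1) ^ 2 := sq_le_sq' k1 k2
    have k4 : (2 * (g' : ℝ) + 1) ^ 2 ≤ 2 * M := by nlinarith
    constructor
    · exact binom_lower hM1 (by omega) (k3.trans k4)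
    · apply binom_lower hM1 (by omega)
      have : (b : ℝ) - M = -((a : ℝ) - M) := by linarith
      rw [this, neg_sq]
      exact k3.trans k4
  have hFT : ∀ u ∈ S, F u ∈ T P ∧ Real.exp (-4) * 4 ^ M ≤
      2 * Real.sqrt M * ((2 * M).choose (lev P (F u)) : ℝ) := by
    rintro ⟨q, s, t⟩ hu
    rw [hS, mem_product] at hu
    have hq := hu.1
    simp only at hq
    have hl := hlevel q hq (finProdFinEquiv (q.1, s)) (finProdFinEquiv (q.2, t)) (by simp)
      (by simp)
    have hxy : (finProdFinEquiv (q.1, s)) ≠ (finProdFinEquiv (q.2, t)) := by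
      intro h
      have := finProdFinEquiv.injective h
      exact (hlt q hq).ne (Prod.ext_iff.mp this).1
    have hx1 : (P (finProdFinEquiv (q.1, s))).1 ≠ (P (finProdFinEquiv (q.2, t))).1 := by
      intro h
      exact hxy (hP.1 _ _ h)
    simp only [hF]
    split_ifs with hlt'
    · have hT : ((finProdFinEquiv (q.1, s)), (finProdFinEquiv (q.2, t))) ∈ T P := mem_T.mpr hlt'
      refine ⟨hT, ?_⟩
      rw [lev_ncard hT]
      exact hl.1
    · have hT : ((finProdFinEquiv (q.2, t)), (finProdFinEquiv (q.1, s))) ∈ T P :=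
        mem_T.mpr (lt_of_le_of_ne (not_lt.mp hlt') hx1)
      refine ⟨hT, ?_⟩
      rw [lev_ncard hT]
      exact hl.2
  have hFinj : Set.InjOn F S := by
    rintro ⟨q, s, t⟩ hu ⟨q', s', t'⟩ hu' h
    rw [mem_coe, hS, mem_product] at hu hu'
    have h1 := hlt q hu.1
    have h2 := hlt q' hu'.1
    simp only [hF] at h
    split_ifs at h with h3 h4 h4
    · simp only [Prod.mk.injEq, EmbeddingLike.apply_eq_iff_eq] at h
      obtain ⟨⟨a1, a2⟩, a3, a4⟩ := h
      simp only [Prod.mk.injEq]
      exact ⟨Prod.ext a1 a3, a2, a4⟩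
    · simp only [Prod.mk.injEq, EmbeddingLike.apply_eq_iff_eq] at h
      obtain ⟨⟨a1, a2⟩, a3, a4⟩ := h
      rw [a1, a3] at h1
      exact absurd h1 (lt_asymm h2)
    · simp only [Prod.mk.injEq, EmbeddingLike.apply_eq_iff_eq] at h
      obtain ⟨⟨a1, a2⟩, a3, a4⟩ := h
      rw [a1, a3] at h1
      exact absurd h1 (lt_asymm h2)
    · simp only [Prod.mk.injEq, EmbeddingLike.apply_eq_iff_eq] at h
      obtain ⟨⟨a1, a2⟩, a3, a4⟩ := h
      simp only [Prod.mk.injEq]
      exact ⟨Prod.ext a3 a1, a4, a2⟩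
  have hsub : S.image F ⊆ T P := by
    intro q hq
    rw [mem_image] at hq
    obtain ⟨u, hu, rfl⟩ := hq
    exact (hFT u hu).1
  have hM0 : (0 : ℝ) < M := by exact_mod_cast hM1
  have hsM : 0 < Real.sqrt M := Real.sqrt_pos.mpr hM0
  have hm0 : (0 : ℝ) < m := by exact_mod_cast hm1
  rw [hmM]
  have h1 : ∑ q ∈ S.image F, ((2 * M).choose (lev P q) : ℝ) ≤
      ∑ q ∈ T P, ((2 * M).choose (lev P q) : ℝ) :=
    sum_le_sum_of_subset_of_nonneg hsub (fun q _ _ => Nat.cast_nonneg _)
  refine le_trans ?_ h1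
  rw [sum_image (fun u hu v hv h => hFinj hu hv h)]
  have h2 : ∀ u ∈ S, Real.exp (-4) * 4 ^ M / (2 * Real.sqrt M) ≤
      ((2 * M).choose (lev P (F u)) : ℝ) := by
    intro u hu
    rw [div_le_iff₀ (by positivity)]
    have := (hFT u hu).2
    linarith
  have h3 := card_nsmul_le_sum S _ _ h2
  refine le_trans ?_ h3
  rw [hS, card_product, card_univ, Fintype.card_prod, Fintype.card_fin, nsmul_eq_mul]
  push_cast
  have hsm : Real.sqrt M ≤ m := by
    rw [Real.sqrt_le_left hm0.le]
    have : (M : ℝ) ≤ m * m := by exact_mod_cast (by omega : M ≤ m * m)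
    nlinarith
  have e1 : (2 : ℝ) ^ (m * m) = 4 * 4 ^ M := by
    rw [hmm, pow_add, pow_mul]; norm_num; ring
  rw [e1, mul_div_assoc', le_div_iff₀ (by positivity)]
  have e2 : 0 ≤ Real.exp (-4) * m * ((HP B).card : ℝ) * 4 ^ M := by positivity
  calc Real.exp (-4) / 8 * m * ((HP B).card : ℝ) * (4 * 4 ^ M) * (2 * Real.sqrt M) =
      (Real.exp (-4) * m * ((HP B).card : ℝ) * 4 ^ M) * Real.sqrt M := by ring
    _ ≤ (Real.exp (-4) * m * ((HP B).card : ℝ) * 4 ^ M) * m := by gcongr
    _ = _ := by ring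

end Pool.Agent.H189R2.Sub
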