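import Pool.Agent.H189R2.Sub.Shell

/-! Blow-up: from halving lines of one set to the average over subsets of a larger set. -/

set_option autoImplicit false

namespace Pool.Agent.H189R2.Sub

open Finset Pool.Agent.H189R2.Lev Pool.Agent.H189R2.Iid

theorem central_ge (M : ℕ) (hM : 1 ≤ M) :
    (16 : ℝ) ^ M ≤ 4 * M * (Nat.centralBinom M : ℝ) ^ 2 := by
  induction M, hM using Nat.le_induction with
  | base => norm_num [Nat.centralBinom]
  | succ M hM ih =>
    have hM0 : (0 : ℝ) < M := by exact_mod_cast hM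
    have h := Nat.succ_mul_centralBinom_succ M
    have h' : ((M : ℝ) + 1) * (Nat.centralBinom (M + 1) : ℝ) =
        2 * (2 * M + 1) * (Nat.centralBinom M : ℝ) := by exact_mod_cast h
    set c : ℝ := (Nat.centralBinom M : ℝ) with hc
    set c' : ℝ := (Nat.centralBinom (M + 1) : ℝ) with hc'
    have e1 : c' = 2 * (2 * M + 1) * c / (M + 1) := by
      rw [← h']; field_simp
    rw [e1]
    push_cast
    have e2 : 4 * ((M : ℝ) + 1) * (2 * (2 * M + 1) * c / (M + 1)) ^ 2 =
        16 * (4 * M * c ^ 2) * ((2 * M + 1) ^ 2 / (4 * M * (M + 1))) := by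
      field_simp
      ring
    rw [e2, pow_succ]
    have e3 : 1 ≤ (2 * (M : ℝ) + 1) ^ 2 / (4 * M * (M + 1)) := by
      rw [le_div_iff₀ (by positivity)]
      nlinarith
    have e4 : 0 ≤ 16 * (4 * (M : ℝ) * c ^ 2) := by positivity
    nlinarith

theorem near_central {M d : ℕ} (hd : (d : ℝ) ^ 2 ≤ 2 * M) :
    Real.exp (-4) * (Nat.centralBinom M : ℝ) ≤ ((2 * M).choose (M + d) : ℝ) := by
  have hM0 : (0 : ℝ) ≤ M := Nat.cast_nonneg M
  have hd0 : (0 : ℝ) ≤ d := Nat.cast_nonneg d
  have hdM : d ≤ M := by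
    by_contra hcon
    push Not at hcon
    have : (M : ℝ) + 1 ≤ d := by exact_mod_cast hcon
    nlinarith
  have hdM' : (d : ℝ) ≤ M := by exact_mod_cast hdM
  set L : ℝ := M - d + 1 with hL
  have hL0 : 0 < L := by rw [hL]; linarith
  have key : ∀ e ≤ d, Real.exp (-((e : ℝ) ^ 2 / L)) * (Nat.centralBinom M : ℝ) ≤
      ((2 * M).choose (M + e) : ℝ) := by
    intro e
    induction e with
    | zero => intro _; simp [Nat.centralBinom]
    | succ e ih =>
      intro he
      have ih' := ih (by omega)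
      have he' : (e : ℝ) + 1 ≤ d := by exact_mod_cast he
      have h1 := Nat.choose_succ_right_eq (2 * M) (M + e)
      have h2 : 2 * M - (M + e) = M - e := by omega
      rw [h2] at h1
      have h3 : ((2 * M).choose (M + e + 1) : ℝ) * (M + e + 1) =
          ((2 * M).choose (M + e) : ℝ) * (M - e) := by
        have : ((M - e : ℕ) : ℝ) = M - e := Nat.cast_sub (by omega)
        rw [← this]
        exact_mod_cast h1
      have he0 : (0 : ℝ) ≤ e := Nat.cast_nonneg e
      have hMe : 0 < (M : ℝ) - e := by linarith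
      have hMe2 : 0 < (M : ℝ) + e + 1 := by positivity
      have h4 : Real.exp (-((2 * e + 1) / L)) ≤ ((M : ℝ) - e) / (M + e + 1) := by
        have a1 : Real.exp (-((2 * e + 1) / L)) ≤ Real.exp (-((2 * e + 1) / ((M : ℝ) - e))) := by
          apply Real.exp_le_exp.mpr
          apply neg_le_neg
          apply div_le_div_of_nonneg_left (by positivity) hL0
          rw [hL]; linarith
        refine a1.trans ?_
        rw [Real.exp_neg, inv_le_comm₀ (Real.exp_pos _) (by positivity), inv_div]
        have a2 := Real.add_one_le_exp ((2 * e + 1) / ((M : ℝ) - e))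
        refine le_trans (le_of_eq ?_) a2
        field_simp
        ring
      have h5 : ((2 * M).choose (M + e + 1) : ℝ) =
          ((2 * M).choose (M + e) : ℝ) * (((M : ℝ) - e) / (M + e + 1)) := by
        rw [← mul_div_assoc, ← h3]
        field_simp
      have h6 : Real.exp (-(((e + 1 : ℕ) : ℝ) ^ 2 / L)) =
          Real.exp (-((e : ℝ) ^ 2 / L)) * Real.exp (-((2 * e + 1) / L)) := by
        rw [← Real.exp_add]
        congr 1
        push_cast
        field_simp
        ring
      have h7 : M + (e + 1) = M + e + 1 := by omega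
      rw [h6, h7, h5]
      calc Real.exp (-((e : ℝ) ^ 2 / L)) * Real.exp (-((2 * e + 1) / L)) *
            (Nat.centralBinom M : ℝ) =
            (Real.exp (-((e : ℝ) ^ 2 / L)) * (Nat.centralBinom M : ℝ)) *
              Real.exp (-((2 * e + 1) / L)) := by ring
        _ ≤ ((2 * M).choose (M + e) : ℝ) * (((M : ℝ) - e) / (M + e + 1)) :=
            mul_le_mul ih' h4 (Real.exp_pos _).le (Nat.cast_nonneg _)
  refine le_trans ?_ (key d le_rfl)
  apply mul_le_mul_of_nonneg_right _ (Nat.cast_nonneg _)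
  apply Real.exp_le_exp.mpr
  apply neg_le_neg
  rw [div_le_iff₀ hL0, hL]
  -- d ^ 2 ≤ 4 (M - d + 1)
  nlinarith [sq_nonneg ((d : ℝ) - 2)]

theorem binom_lower {M a : ℕ} (hM : 1 ≤ M) (ha : a ≤ 2 * M) (h : ((a : ℝ) - M) ^ 2 ≤ 2 * M) :
    Real.exp (-4) * 4 ^ M ≤ 2 * Real.sqrt M * ((2 * M).choose a : ℝ) := by
  have hM0 : (0 : ℝ) < M := by exact_mod_cast hM
  have h1 : Real.exp (-4) * (Nat.centralBinom M : ℝ) ≤ ((2 * M).choose a : ℝ) := by
    rcases le_total M a with h2 | h2
    · obtain ⟨d, rfl⟩ := Nat.exists_eq_add_of_le h2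
      apply near_central
      push_cast at h
      rw [add_sub_cancel_left] at h
      exact h
    · obtain ⟨d, rfl⟩ := Nat.exists_eq_add_of_le h2
      have h3 := near_central (M := a + d) (d := d) (by
        push_cast at h ⊢
        nlinarith)
      have h4 : (2 * (a + d)).choose (a + d + d) = (2 * (a + d)).choose a := by
        apply Nat.choose_symm_of_eq_add
        omega
      rw [h4] at h3
      exact h3
  have h2 := central_ge M hM
  have h3 : (4 : ℝ) ^ M ≤ 2 * Real.sqrt M * (Nat.centralBinom M : ℝ) := by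
    have e1 : ((4 : ℝ) ^ M) ^ 2 ≤ (2 * Real.sqrt M * (Nat.centralBinom M : ℝ)) ^ 2 := by
      rw [mul_pow, mul_pow, Real.sq_sqrt hM0.le, ← pow_mul, mul_comm M 2, pow_mul]
      norm_num
      linarith
    exact le_of_sq_le_sq e1 (by positivity)
  calc Real.exp (-4) * 4 ^ M ≤ Real.exp (-4) * (2 * Real.sqrt M * (Nat.centralBinom M : ℝ)) :=
        mul_le_mul_of_nonneg_left h3 (Real.exp_pos _).le
    _ = 2 * Real.sqrt M * (Real.exp (-4) * (Nat.centralBinom M : ℝ)) := by ring
    _ ≤ _ := mul_le_mul_of_nonneg_left h1 (by positivity)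

end Pool.Agent.H189R2.Sub
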