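import Pool.Agent.H189R2.Sub.Avg
import Pool.Agent.H189R2.Iid.Bin

/-! Summing the binomial weights over all pairs. -/

set_option autoImplicit false

namespace Pool.Agent.H189R2.Sub

open Finset Pool.Agent.H189R2.Lev Pool.Agent.H189R2.Iid

theorem binom_exp_half {N a : ℕ} (hN : 1 ≤ N) (ha : 2 * a ≤ N) :
    (N.choose a : ℝ) ≤ 2 ^ N * (4 / Real.sqrt N *
      Real.exp (-(((N : ℝ) / 2 - a) ^ 2 / (4 * N)))) := by
  have hN0 : (0 : ℝ) < N := by exact_mod_cast hN
  have hs0 : 0 < Real.sqrt N := Real.sqrt_pos.mpr hN0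
  have hs2 : Real.sqrt N ^ 2 = N := Real.sq_sqrt hN0.le
  rcases Nat.eq_zero_or_pos a with h0 | h0
  · subst h0
    rw [Nat.choose_zero_right]
    have e1 : ((N : ℝ) / 2 - (0 : ℕ)) ^ 2 / (4 * N) = N / 16 := by
      push_cast; field_simp; ring
    rw [e1]
    have e2 : Real.exp (N / 2 : ℝ) ≤ 2 ^ N := by
      rw [← Real.exp_log (show (0 : ℝ) < 2 ^ N by positivity), Real.log_pow]
      apply Real.exp_le_exp.mpr
      have := Real.log_two_gt_d9
      nlinarith
    have e3 : Real.sqrt N ≤ 4 * Real.exp (N / 4 : ℝ) := by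
      have := Real.add_one_le_exp (N / 4 : ℝ)
      nlinarith [sq_nonneg (Real.sqrt N - 1)]
    have e4 : Real.exp (N / 2 : ℝ) * Real.exp (-(N / 16) : ℝ) = Real.exp (7 * N / 16 : ℝ) := by
      rw [← Real.exp_add]; congr 1; ring
    have e5 : Real.exp (N / 4 : ℝ) ≤ Real.exp (7 * N / 16 : ℝ) := by
      apply Real.exp_le_exp.mpr; linarith
    have e6 : Real.sqrt N ≤ 4 * (2 ^ N * Real.exp (-(N / 16) : ℝ)) := by
      have : Real.exp (N / 2 : ℝ) * Real.exp (-(N / 16) : ℝ) ≤
        2 ^ N * Real.exp (-(N / 16) : ℝ) := mul_le_mul_of_nonneg_right e2 (Real.exp_pos _).le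
      linarith
    calc ((1 : ℕ) : ℝ) = Real.sqrt N / Real.sqrt N := by rw [div_self hs0.ne']; norm_num
      _ ≤ 4 * (2 ^ N * Real.exp (-(N / 16) : ℝ)) / Real.sqrt N := by gcongr
      _ = _ := by ring
  · have ha0 : (0 : ℝ) < a := by exact_mod_cast h0
    have haN : (2 * a : ℝ) ≤ N := by exact_mod_cast ha
    have h1 := weight h0 ha (f := 1 / 2) (by norm_num) (by norm_num)
    have hmax : max ((a : ℝ) / N) (1 / 2) = 1 / 2 := by
      apply max_eq_right
      rw [div_le_div_iff₀ hN0 (by norm_num)]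
      linarith
    rw [hmax] at h1
    have e1 : ((1 / 2 : ℝ)) ^ a * (1 - 1 / 2) ^ (N - a) = 1 / 2 ^ N := by
      rw [show (1 - 1 / 2 : ℝ) = 1 / 2 by norm_num, ← pow_add, Nat.add_sub_cancel' (by omega),
        one_div_pow]
    rw [e1] at h1
    set D : ℝ := (N : ℝ) / 2 - a with hD
    have e2 : (N : ℝ) * (1 / 2 - a / N) ^ 2 / (4 * (1 / 2)) = D ^ 2 / (2 * N) := by
      rw [hD]; field_simp
      ring
    rw [e2] at h1
    have h2 : (N.choose a : ℝ) ≤ 2 ^ N * (1 / Real.sqrt a * Real.exp (-(D ^ 2 / (2 * N)))) := by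
      have : (N.choose a : ℝ) = 2 ^ N * ((N.choose a : ℝ) * (1 / 2 ^ N)) := by
        field_simp
      rw [this]
      exact mul_le_mul_of_nonneg_left h1 (by positivity)
    refine h2.trans (mul_le_mul_of_nonneg_left ?_ (by positivity))
    have hsa : 0 < Real.sqrt a := Real.sqrt_pos.mpr ha0
    have hsa1 : 1 ≤ Real.sqrt a := by
      rw [Real.one_le_sqrt]; exact_mod_cast h0
    have e3 : Real.exp (-(D ^ 2 / (2 * N))) =
        Real.exp (-(D ^ 2 / (4 * N))) * Real.exp (-(D ^ 2 / (4 * N))) := by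
      rw [← Real.exp_add]; congr 1; field_simp; ring
    rw [e3, ← mul_assoc]
    apply mul_le_mul_of_nonneg_right _ (Real.exp_pos _).le
    rw [Real.exp_neg, div_mul_eq_mul_div, one_mul, div_le_div_iff₀ hsa hs0]
    rw [inv_mul_le_iff₀ (Real.exp_pos _)]
    -- √N ≤ exp(..) * (4 * √a)
    by_cases h4 : (N : ℝ) ≤ 4 * a
    · have e5 : Real.sqrt N ≤ 2 * Real.sqrt a := by
        rw [show (2 : ℝ) = Real.sqrt 4 by
          rw [show (4 : ℝ) = 2 ^ 2 by norm_num, Real.sqrt_sq (by norm_num)],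
          ← Real.sqrt_mul (by norm_num)]
        exact Real.sqrt_le_sqrt h4
      have e6 : 1 ≤ Real.exp (D ^ 2 / (4 * N)) := Real.one_le_exp (by positivity)
      nlinarith
    · push Not at h4
      have e5 : (N : ℝ) / 4 ≤ D := by rw [hD]; linarith
      have e6 : (N : ℝ) / 64 ≤ D ^ 2 / (4 * N) := by
        rw [div_le_div_iff₀ (by norm_num) (by positivity)]
        nlinarith
      have e7 := Real.add_one_le_exp (D ^ 2 / (4 * N))
      have e8 : Real.sqrt N ≤ 4 * (D ^ 2 / (4 * N) + 1) := by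
        nlinarith [sq_nonneg (Real.sqrt N / 8 - 1)]
      have e9 : Real.sqrt N ≤ 4 * Real.exp (D ^ 2 / (4 * N)) := by linarith
      have e10 := Real.exp_pos (D ^ 2 / (4 * N))
      nlinarith

theorem binom_exp {N a : ℕ} (hN : 1 ≤ N) (ha : a ≤ N) :
    (N.choose a : ℝ) ≤ 2 ^ N * (4 / Real.sqrt N *
      Real.exp (-(((N : ℝ) / 2 - a) ^ 2 / (4 * N)))) := by
  by_cases h : 2 * a ≤ N
  · exact binom_exp_half hN h
  · have h1 := binom_exp_half hN (a := N - a) (by omega)
    rw [Nat.choose_symm ha, Nat.cast_sub ha] at h1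
    have : ((N : ℝ) / 2 - (N - a)) ^ 2 = ((N : ℝ) / 2 - a) ^ 2 := by ring
    rw [this] at h1
    exact h1

theorem card_window (M : ℕ) (c L : ℝ) (hL : 0 ≤ L) (hc : 0 ≤ c) :
    (((range M).filter (fun a : ℕ => |c - a| ≤ L)).card : ℝ) ≤ 2 * L + 1 := by
  have h : (range M).filter (fun a : ℕ => |c - a| ≤ L) ⊆ Icc ⌈c - L⌉₊ ⌊c + L⌋₊ := by
    intro a ha
    rw [mem_filter, abs_le] at ha
    rw [mem_Icc]
    exact ⟨Nat.ceil_le.mpr (by linarith [ha.2.2]), Nat.le_floor (by linarith [ha.2.1])⟩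
  have h1 := card_le_card h
  rw [Nat.card_Icc] at h1
  have h2 : (⌊c + L⌋₊ : ℝ) ≤ c + L := Nat.floor_le (by positivity)
  have h3 : c - L ≤ (⌈c - L⌉₊ : ℝ) := Nat.le_ceil _
  by_cases h4 : ⌈c - L⌉₊ ≤ ⌊c + L⌋₊ + 1
  · have h5 : (((⌊c + L⌋₊ + 1 - ⌈c - L⌉₊ : ℕ)) : ℝ) = ⌊c + L⌋₊ + 1 - ⌈c - L⌉₊ := by
      rw [Nat.cast_sub h4]; push_cast; ring
    have h6 : (((range M).filter (fun a : ℕ => |c - a| ≤ L)).card : ℝ) ≤
        (((⌊c + L⌋₊ + 1 - ⌈c - L⌉₊ : ℕ)) : ℝ) := by exact_mod_cast h1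
    rw [h5] at h6
    linarith
  · have h5 : ⌊c + L⌋₊ + 1 - ⌈c - L⌉₊ = 0 := by omega
    rw [h5] at h1
    have h6 : ((range M).filter (fun a : ℕ => |c - a| ≤ L)).card = 0 := by omega
    rw [h6]
    push_cast
    linarith

theorem lev_le {n : ℕ} {P : Fin n → ℝ × ℝ} {q : Fin n × Fin n} (hq : q ∈ T P) :
    lev P q ≤ n - 2 := by
  classical
  have hq' := mem_T.mp hq
  have hne : q.1 ≠ q.2 := by
    intro h; rw [h] at hq'; exact lt_irrefl _ hq'
  unfold lev
  have h1 : univ.filter (fun l => P l ∈ low (P q.1) (P q.2)) ⊆ (univ.erase q.1).erase q.2 := by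
    intro l hl
    rw [mem_filter] at hl
    rw [mem_erase, mem_erase]
    refine ⟨?_, ?_, mem_univ _⟩
    · rintro rfl
      exact snd_notMem_low hq' hl.2
    · rintro rfl
      exact fst_notMem_low _ _ hl.2
  refine (card_le_card h1).trans ?_
  rw [card_erase_of_mem (by rw [mem_erase]; exact ⟨hne.symm, mem_univ _⟩),
    card_erase_of_mem (mem_univ _), card_univ, Fintype.card_fin]
  omega

theorem exp_quarter : Real.exp (-(1 / 4)) ≤ 4 / 5 := by
  rw [Real.exp_neg]
  have := Real.add_one_le_exp (1 / 4 : ℝ)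
  rw [inv_le_comm₀ (Real.exp_pos _) (by norm_num)]
  linarith

open Classical in
/-- total number of halving lines of all subsets of a set in general position -/
theorem total_le {n : ℕ} {P : Fin n → ℝ × ℝ} (hP : GP P) :
    (∑ A : Finset (Fin n), (hc P A : ℝ)) ≤ 450 * (n : ℝ) ^ (7 / 6 : ℝ) * 2 ^ n := by
  have hav : (∑ A : Finset (Fin n), (hc P A : ℝ)) =
      ∑ q ∈ T P, ((n - 2).choose (lev P q) : ℝ) := by
    exact_mod_cast avg_eq hP
  rw [hav]
  by_cases hn : 3 ≤ n
  · set N := n - 2 with hN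
    have hN1 : 1 ≤ N := by omega
    have hN0 : (0 : ℝ) < N := by exact_mod_cast hN1
    have hN1' : (1 : ℝ) ≤ N := by exact_mod_cast hN1
    have hn0 : (0 : ℝ) < n := by exact_mod_cast (by omega : 0 < n)
    have hnN : (n : ℝ) ≤ 3 * N := by exact_mod_cast (by omega : n ≤ 3 * N)
    have hNn : (N : ℝ) ≤ n := by exact_mod_cast (by omega : N ≤ n)
    set s := Real.sqrt N with hs
    have hs0 : 0 < s := Real.sqrt_pos.mpr hN0
    have hs2 : s ^ 2 = N := Real.sq_sqrt hN0.le
    have hs1 : 1 ≤ s := by rw [hs, Real.one_le_sqrt]; exact hN1'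
    set r := Real.exp (-(1 / 4)) with hr
    have hr0 : 0 < r := Real.exp_pos _
    have hr1 : r ≤ 4 / 5 := exp_quarter
    set t : ℝ := (n : ℝ) ^ (5 / 3 : ℝ) with ht
    have ht0 : 0 < t := Real.rpow_pos_of_pos hn0 _
    have ht3 : t ^ 3 = (n : ℝ) ^ 5 := by
      rw [ht, ← Real.rpow_natCast, ← Real.rpow_mul hn0.le, ← Real.rpow_natCast]
      norm_num
    set W : ℕ → Finset ℕ := fun j => (range (N + 1)).filter (fun a : ℕ =>
      |(N : ℝ) / 2 - a| ≤ (j + 1) * s) with hW
    have hWc : ∀ j : ℕ, ((W j).card : ℝ) ≤ 3 * (j + 1) * s := by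
      intro j
      have h1 := card_window (N + 1) ((N : ℝ) / 2) ((j + 1) * s) (by positivity) (by positivity)
      have h2 : 1 ≤ ((j : ℝ) + 1) * s := by
        have : (1 : ℝ) ≤ (j : ℝ) + 1 := by
          have : (0 : ℝ) ≤ j := Nat.cast_nonneg j
          linarith
        nlinarith
      linarith
    have hE : ∀ j : ℕ, (((T P).filter (fun q => lev P q ∈ W j)).card : ℝ) ≤
        9 * t * (j + 1) := by
      intro j
      have h1 := window hP (W j)
      have h2 : ((W j).card : ℝ) ^ 2 ≤ (3 * (j + 1) * s) ^ 2 :=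
        pow_le_pow_left₀ (Nat.cast_nonneg _) (hWc j) 2
      have hj1 : (1 : ℝ) ≤ (j : ℝ) + 1 := by
        have : (0 : ℝ) ≤ j := Nat.cast_nonneg j
        linarith
      have h3 : (((T P).filter (fun q => lev P q ∈ W j)).card : ℝ) ^ 3 ≤
          (9 * t * (j + 1)) ^ 3 := by
        calc (((T P).filter (fun q => lev P q ∈ W j)).card : ℝ) ^ 3 ≤
            64 * (n : ℝ) ^ 4 * ((W j).card : ℝ) ^ 2 := h1
          _ ≤ 64 * (n : ℝ) ^ 4 * (3 * (j + 1) * s) ^ 2 := by gcongr
          _ = 576 * (n : ℝ) ^ 4 * (j + 1) ^ 2 * s ^ 2 := by ring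
          _ ≤ 576 * (n : ℝ) ^ 4 * (j + 1) ^ 2 * n := by rw [hs2]; gcongr
          _ = 576 * (n : ℝ) ^ 5 * (j + 1) ^ 2 := by ring
          _ ≤ 729 * (n : ℝ) ^ 5 * (j + 1) ^ 3 := by
              have : ((j : ℝ) + 1) ^ 2 ≤ (j + 1) ^ 3 := pow_le_pow_right₀ hj1 (by norm_num)
              gcongr
              norm_num
          _ = (9 * t * (j + 1)) ^ 3 := by rw [mul_pow, mul_pow, ht3]; norm_num
      exact le_of_pow_le_pow_left₀ (by norm_num) (by positivity) h3
    -- shell of a pair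
    set y : Fin n × Fin n → ℝ := fun q => |(N : ℝ) / 2 - lev P q| / s with hy
    have hy0 : ∀ q, 0 ≤ y q := fun q => by simp only [hy]; positivity
    have hterm : ∀ q ∈ T P, (N.choose (lev P q) : ℝ) ≤ 2 ^ N * (4 / s * r ^ ⌊y q⌋₊) := by
      intro q hq
      refine (binom_exp hN1 (lev_le hq)).trans ?_
      apply mul_le_mul_of_nonneg_left _ (by positivity)
      apply mul_le_mul_of_nonneg_left _ (by positivity)
      rw [hr, ← Real.exp_nat_mul]
      apply Real.exp_le_exp.mpr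
      have e1 : ((N : ℝ) / 2 - lev P q) ^ 2 / (4 * N) = (y q) ^ 2 / 4 := by
        simp only [hy]
        rw [div_pow, sq_abs, hs2]
        field_simp
      rw [e1]
      have e2 : (⌊y q⌋₊ : ℝ) ≤ y q ^ 2 := by
        have h1 := Nat.floor_le (hy0 q)
        rcases Nat.eq_zero_or_pos ⌊y q⌋₊ with h2 | h2
        · rw [h2]; push_cast; positivity
        · have h3 : (1 : ℝ) ≤ (⌊y q⌋₊ : ℝ) := by exact_mod_cast h2
          nlinarith
      linarith
    have hJ : ∀ q ∈ T P, ⌊y q⌋₊ ∈ range (N + 1) := by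
      intro q hq
      rw [mem_range, Nat.lt_succ_iff]
      apply Nat.floor_le_of_le
      have h1 := lev_le hq
      have h2 : (lev P q : ℝ) ≤ N := by exact_mod_cast h1
      have h3 : (0 : ℝ) ≤ lev P q := Nat.cast_nonneg _
      simp only [hy]
      rw [div_le_iff₀ hs0, abs_le]
      constructor <;> nlinarith
    have hsum : ∑ q ∈ T P, r ^ ⌊y q⌋₊ ≤ 225 * t := by
      have h1 : ∑ q ∈ T P, r ^ ⌊y q⌋₊ =
          ∑ j ∈ range (N + 1), ∑ q ∈ (T P).filter (fun q => ⌊y q⌋₊ = j), r ^ j := by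
        rw [← sum_fiberwise_of_maps_to hJ]
        apply sum_congr rfl
        intro j _
        apply sum_congr rfl
        intro q hq
        rw [(mem_filter.mp hq).2]
      rw [h1]
      have h2 : ∀ j ∈ range (N + 1), ∑ q ∈ (T P).filter (fun q => ⌊y q⌋₊ = j), r ^ j ≤
          9 * t * (((j : ℝ) + 1) * r ^ j) := by
        intro j _
        rw [sum_const, nsmul_eq_mul]
        have h3 : (((T P).filter (fun q => ⌊y q⌋₊ = j)).card : ℝ) ≤
            (((T P).filter (fun q => lev P q ∈ W j)).card : ℝ) := by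
          apply Nat.cast_le.mpr
          apply card_le_card
          intro q hq
          rw [mem_filter] at hq ⊢
          refine ⟨hq.1, ?_⟩
          rw [hW, mem_filter, mem_range]
          refine ⟨Nat.lt_succ_of_le (lev_le hq.1), ?_⟩
          have h4 := Nat.lt_floor_add_one (y q)
          rw [hq.2] at h4
          simp only [hy] at h4
          rw [div_lt_iff₀ hs0] at h4
          exact h4.le
        calc _ ≤ (9 * t * (j + 1)) * r ^ j :=
              mul_le_mul_of_nonneg_right (h3.trans (hE j)) (by positivity)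
          _ = _ := by ring
      refine (sum_le_sum h2).trans ?_
      rw [← mul_sum]
      have h3 := sum_geom hr0.le (by linarith : r < 1) (N + 1)
      have h4 : 1 / (1 - r) ^ 2 ≤ 25 := by
        rw [div_le_iff₀ (by nlinarith)]
        nlinarith
      have h5 : 9 * t * (∑ j ∈ range (N + 1), ((j : ℝ) + 1) * r ^ j) ≤ 9 * t * 25 := by
        gcongr
        linarith
      linarith
    have hfin : ∑ q ∈ T P, (N.choose (lev P q) : ℝ) ≤ 2 ^ N * (4 / s * (225 * t)) := by
      refine (sum_le_sum hterm).trans ?_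
      rw [← mul_sum, ← mul_sum]
      gcongr
    refine hfin.trans ?_
    have e1 : (2 : ℝ) ^ n = 4 * 2 ^ N := by
      have : n = N + 2 := by omega
      rw [this, pow_add]; norm_num; ring
    have e2 : (n : ℝ) ^ (7 / 6 : ℝ) * Real.sqrt n = t := by
      rw [Real.sqrt_eq_rpow, ← Real.rpow_add hn0, ht]
      norm_num
    have e3 : Real.sqrt n ≤ 2 * s := by
      rw [show (2 : ℝ) = Real.sqrt 4 by
          rw [show (4 : ℝ) = 2 ^ 2 by norm_num, Real.sqrt_sq (by norm_num)], hs,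
          ← Real.sqrt_mul (by norm_num)]
      apply Real.sqrt_le_sqrt
      linarith
    have e4 : t ≤ (n : ℝ) ^ (7 / 6 : ℝ) * (2 * s) := by
      rw [← e2]
      gcongr
    have e5 : t / s ≤ 2 * (n : ℝ) ^ (7 / 6 : ℝ) := by
      rw [div_le_iff₀ hs0]; linarith
    rw [e1]
    calc (2 : ℝ) ^ N * (4 / s * (225 * t)) = 900 * 2 ^ N * (t / s) := by ring
      _ ≤ 900 * 2 ^ N * (2 * (n : ℝ) ^ (7 / 6 : ℝ)) := by gcongr
      _ = _ := by ring
  · push Not at hn
    have hT : 2 * (T P).card ≤ n ^ 2 := T_card P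
    have hch : ∀ q ∈ T P, ((n - 2).choose (lev P q) : ℝ) ≤ 1 := by
      intro q _
      have : n - 2 = 0 := by omega
      rw [this]
      cases lev P q with
      | zero => simp
      | succ k => simp
    refine (sum_le_sum hch).trans ?_
    rw [sum_const, nsmul_eq_mul, mul_one]
    rcases Nat.eq_zero_or_pos n with h0 | h0
    · have : (T P).card = 0 := by
        have h2 : n ^ 2 = 0 := by rw [h0]; rfl
        omega
      rw [this]; push_cast; positivity
    · have h1 : (T P).card ≤ 2 := by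
        have : n ^ 2 ≤ 4 := by nlinarith
        omega
      have h2 : (1 : ℝ) ≤ (n : ℝ) ^ (7 / 6 : ℝ) :=
        Real.one_le_rpow (by exact_mod_cast h0) (by norm_num)
      have h3 : (1 : ℝ) ≤ 2 ^ n := one_le_pow₀ (by norm_num)
      have h4 : ((T P).card : ℝ) ≤ 2 := by exact_mod_cast h1
      nlinarith

end Pool.Agent.H189R2.Sub
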