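import Pool.Agent.H189R2.Iid.Low

/-! The number of pairs whose level lies in a window of `w` levels is at most
`4 n^(4/3) w^(2/3)` (Dey's theorem for several levels). -/

set_option autoImplicit false

namespace Pool.Agent.H189R2.Sub

open Finset Pool.Agent.H189R2.Lev Pool.Agent.H189R2.Iid

open Classical in
theorem edges_le_sub {n : ℕ} {P : Fin n → ℝ × ℝ} (hP : GP P) (S : Finset (Fin n))
    (G : Finset (Fin n × Fin n)) (hG : ∀ e ∈ G, e.1 ∈ S ∧ e.2 ∈ S ∧ (P e.2).1 < (P e.1).1) :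
    G.card ≤ 3 * S.card + ((G ×ˢ G).filter (fun q => q.1 ≠ q.2 ∧
      CrossP (P q.1.1) (P q.1.2) (P q.2.1) (P q.2.2))).card := by
  set φ := S.orderEmbOfFin rfl with hφ
  have hφr : ∀ i ∈ S, ∃ j, φ j = i := by
    intro i hi
    have : i ∈ Set.range φ := by rw [hφ, range_orderEmbOfFin]; exact hi
    exact this
  set Q : Fin S.card → ℝ × ℝ := fun i => P (φ i) with hQ
  have hQG : GP Q := by
    refine ⟨fun i j h => φ.injective (hP.1 _ _ h), fun i j r s h1 h2 h3 => ?_⟩
    have := hP.2 _ _ _ _ h1 h2 h3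
    exact ⟨φ.injective this.1, φ.injective this.2⟩
  set G' : Finset (Fin S.card × Fin S.card) := univ.filter (fun e => (φ e.1, φ e.2) ∈ G) with hG'
  have h0 := edges_le hQG G' (fun e he => by
    rw [hG', mem_filter] at he
    exact (hG _ he.2).2.2)
  have h1 : G.card ≤ G'.card := by
    apply card_le_card_of_surjOn (fun e => (φ e.1, φ e.2))
    rintro ⟨i, j⟩ he
    obtain ⟨h1, h2, _⟩ := hG _ he
    obtain ⟨i', rfl⟩ := hφr i h1
    obtain ⟨j', rfl⟩ := hφr j h2
    exact ⟨(i', j'), by rw [hG', mem_coe, mem_filter]; exact ⟨mem_univ _, he⟩, rfl⟩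
  have h2 : ((G' ×ˢ G').filter (fun q => q.1 ≠ q.2 ∧
      CrossP (Q q.1.1) (Q q.1.2) (Q q.2.1) (Q q.2.2))).card ≤ ((G ×ˢ G).filter (fun q =>
      q.1 ≠ q.2 ∧ CrossP (P q.1.1) (P q.1.2) (P q.2.1) (P q.2.2))).card := by
    apply card_le_card_of_injOn (fun q => ((φ q.1.1, φ q.1.2), (φ q.2.1, φ q.2.2)))
    · rintro ⟨e, f⟩ h
      simp only [coe_filter, mem_product, Set.mem_ofPred_eq, hG', mem_filter, mem_univ,
        true_and] at h ⊢
      refine ⟨h.1, ?_, h.2.2⟩
      intro heq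
      simp only [Prod.mk.injEq, EmbeddingLike.apply_eq_iff_eq] at heq
      exact h.2.1 (Prod.ext heq.1 heq.2)
    · rintro ⟨⟨a, b⟩, ⟨c, d⟩⟩ _ ⟨⟨a', b'⟩, ⟨c', d'⟩⟩ _ h
      simp only [Prod.mk.injEq, EmbeddingLike.apply_eq_iff_eq] at h ⊢
      exact h
  omega

/-- weight of a colour -/
noncomputable def wt (p : ℝ) (b : Bool) : ℝ := if b then p else 1 - p

/-- weight of a colouring -/
noncomputable def Wt {n : ℕ} (p : ℝ) (c : Fin n → Bool) : ℝ := ∏ l, wt p (c l)

theorem Wt_nonneg {n : ℕ} {p : ℝ} (hp0 : 0 ≤ p) (hp1 : p ≤ 1) (c : Fin n → Bool) :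
    0 ≤ Wt p c := by
  apply prod_nonneg
  intro l _
  unfold wt
  split_ifs <;> linarith

theorem Wt_sum {n : ℕ} (p : ℝ) (D : Finset (Fin n)) :
    ∑ c : Fin n → Bool, Wt p c * (if ∀ l ∈ D, c l = true then (1 : ℝ) else 0) = p ^ D.card := by
  classical
  have e1 : ∀ c : Fin n → Bool, Wt p c * (if ∀ l ∈ D, c l = true then (1 : ℝ) else 0) =
      if c ∈ Fintype.piFinset (fun i => if i ∈ D then ({true} : Finset Bool) else univ)
        then Wt p c else 0 := by
    intro c
    have : c ∈ Fintype.piFinset (fun i => if i ∈ D then ({true} : Finset Bool) else univ) ↔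
        ∀ l ∈ D, c l = true := by
      rw [Fintype.mem_piFinset]
      constructor
      · intro h l hl
        have := h l
        simpa [hl] using this
      · intro h i
        by_cases hi : i ∈ D
        · simp [hi, h i hi]
        · simp [hi]
    simp only [this]
    split_ifs <;> simp
  simp_rw [e1]
  rw [← sum_filter]
  have e3 : univ.filter (fun c : Fin n → Bool => c ∈ Fintype.piFinset
      (fun i => if i ∈ D then ({true} : Finset Bool) else univ)) = Fintype.piFinset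
      (fun i => if i ∈ D then ({true} : Finset Bool) else univ) := by
    ext c; simp
  rw [e3]
  unfold Wt
  rw [← Finset.prod_univ_sum (fun i => if i ∈ D then ({true} : Finset Bool) else univ)
    (fun _ b => wt p b)]
  have e4 : ∀ i, ∑ j ∈ (if i ∈ D then ({true} : Finset Bool) else univ), wt p j =
      if i ∈ D then p else 1 := by
    intro i
    by_cases hi : i ∈ D
    · simp [hi, wt]
    · simp [hi, wt]
  simp_rw [e4]
  rw [prod_ite_mem, univ_inter, prod_const]

theorem Wt_count {n : ℕ} {ι : Type*} (p : ℝ) (I : Finset ι) (D : ι → Finset (Fin n)) :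
    ∑ c : Fin n → Bool, Wt p c * ((I.filter (fun i => ∀ l ∈ D i, c l = true)).card : ℝ) =
      ∑ i ∈ I, p ^ (D i).card := by
  have e1 : ∀ c : Fin n → Bool, Wt p c *
      ((I.filter (fun i => ∀ l ∈ D i, c l = true)).card : ℝ) =
      ∑ i ∈ I, Wt p c * (if ∀ l ∈ D i, c l = true then (1 : ℝ) else 0) := by
    intro c
    rw [card_filter]
    push_cast
    rw [mul_sum]
  simp_rw [e1]
  rw [sum_comm]
  apply sum_congr rfl
  intro i _
  exact Wt_sum p (D i)

open Classical in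
/-- sampled crossing inequality -/
theorem sampled {n : ℕ} {P : Fin n → ℝ × ℝ} (hP : GP P) {p : ℝ} (hp0 : 0 ≤ p) (hp1 : p ≤ 1)
    (G : Finset (Fin n × Fin n)) (hG : ∀ e ∈ G, e ∈ T P) :
    p ^ 2 * (G.card : ℝ) ≤ 3 * p * n + p ^ 4 * (((G ×ˢ G).filter (fun q => q.1 ≠ q.2 ∧
      CrossP (P q.1.1) (P q.1.2) (P q.2.1) (P q.2.2))).card : ℝ) := by
  set X := (G ×ˢ G).filter (fun q => q.1 ≠ q.2 ∧
      CrossP (P q.1.1) (P q.1.2) (P q.2.1) (P q.2.2)) with hX
  have h1 : ∑ c : Fin n → Bool, Wt p c *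
      ((G.filter (fun e => ∀ l ∈ ({e.1, e.2} : Finset (Fin n)), c l = true)).card : ℝ) =
      p ^ 2 * G.card := by
    rw [Wt_count, sum_congr rfl (g := fun _ => p ^ 2), sum_const, nsmul_eq_mul, mul_comm]
    intro e he
    rw [card_pair]
    intro h
    have := mem_T.mp (hG e he)
    rw [h] at this
    exact lt_irrefl _ this
  have h2 : ∑ c : Fin n → Bool, Wt p c *
      (((univ : Finset (Fin n)).filter (fun i => ∀ l ∈ ({i} : Finset (Fin n)),
        c l = true)).card : ℝ) = p * n := by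
    rw [Wt_count]
    simp [mul_comm]
  have h3 : ∑ c : Fin n → Bool, Wt p c *
      ((X.filter (fun q => ∀ l ∈ ({q.1.1, q.1.2, q.2.1, q.2.2} : Finset (Fin n)),
        c l = true)).card : ℝ) = p ^ 4 * X.card := by
    rw [Wt_count, sum_congr rfl (g := fun _ => p ^ 4), sum_const, nsmul_eq_mul, mul_comm]
    rintro ⟨e, f⟩ hq
    rw [hX, mem_filter, mem_product] at hq
    obtain ⟨⟨he, hf⟩, hne, hc⟩ := hq
    obtain ⟨d1, d2, d3, d4, d5, d6⟩ := cross_distinct hP (hG _ he) (hG _ hf) hne hc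
    simp only at d1 d2 d3 d4 d5 d6 ⊢
    rw [card_insert_of_notMem, card_insert_of_notMem, card_pair d2]
    · simp only [mem_insert, mem_singleton, not_or]
      exact ⟨d5, d6⟩
    · simp only [mem_insert, mem_singleton, not_or]
      exact ⟨d1, d3, d4⟩
  rw [← h1, ← h3, mul_assoc, ← h2, mul_sum, ← sum_add_distrib]
  apply sum_le_sum
  intro c _
  have hW := Wt_nonneg (n := n) hp0 hp1 c
  have h4 := edges_le_sub hP
    ((univ : Finset (Fin n)).filter (fun i => ∀ l ∈ ({i} : Finset (Fin n)), c l = true))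
    (G.filter (fun e => ∀ l ∈ ({e.1, e.2} : Finset (Fin n)), c l = true)) (by
      intro e he
      rw [mem_filter] at he
      refine ⟨?_, ?_, mem_T.mp (hG e he.1)⟩
      · simp only [mem_filter, mem_univ, mem_singleton, forall_eq, true_and]
        exact he.2 e.1 (by simp)
      · simp only [mem_filter, mem_univ, mem_singleton, forall_eq, true_and]
        exact he.2 e.2 (by simp))
  have h5 : (((G.filter (fun e => ∀ l ∈ ({e.1, e.2} : Finset (Fin n)), c l = true)) ×ˢ
      (G.filter (fun e => ∀ l ∈ ({e.1, e.2} : Finset (Fin n)), c l = true))).filter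
      (fun q => q.1 ≠ q.2 ∧ CrossP (P q.1.1) (P q.1.2) (P q.2.1) (P q.2.2))).card ≤
      (X.filter (fun q => ∀ l ∈ ({q.1.1, q.1.2, q.2.1, q.2.2} : Finset (Fin n)),
        c l = true)).card := by
    apply card_le_card
    rintro ⟨e, f⟩ hq
    rw [mem_filter, mem_product, mem_filter, mem_filter] at hq
    obtain ⟨⟨⟨a1, a2⟩, ⟨b1, b2⟩⟩, hq2⟩ := hq
    rw [mem_filter, hX, mem_filter, mem_product]
    refine ⟨⟨⟨a1, b1⟩, hq2⟩, ?_⟩
    intro l hl
    simp only [mem_insert, mem_singleton] at hl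
    rcases hl with rfl | rfl | rfl | rfl
    · exact a2 _ (by simp)
    · exact a2 _ (by simp)
    · exact b2 _ (by simp)
    · exact b2 _ (by simp)
  have h6 := h4.trans (Nat.add_le_add_left h5 _)
  have h7 : (((G.filter (fun e => ∀ l ∈ ({e.1, e.2} : Finset (Fin n)), c l = true)).card : ℝ)) ≤
      3 * (((univ : Finset (Fin n)).filter (fun i => ∀ l ∈ ({i} : Finset (Fin n)),
        c l = true)).card : ℝ) +
      ((X.filter (fun q => ∀ l ∈ ({q.1.1, q.1.2, q.2.1, q.2.2} : Finset (Fin n)),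
        c l = true)).card : ℝ) := by exact_mod_cast h6
  calc _ ≤ Wt p c * (3 * (((univ : Finset (Fin n)).filter (fun i =>
          ∀ l ∈ ({i} : Finset (Fin n)), c l = true)).card : ℝ) +
      ((X.filter (fun q => ∀ l ∈ ({q.1.1, q.1.2, q.2.1, q.2.2} : Finset (Fin n)),
        c l = true)).card : ℝ)) := mul_le_mul_of_nonneg_left h7 hW
    _ = _ := by ring

open Classical in
/-- **Dey's bound for a window of levels** -/
theorem window {n : ℕ} {P : Fin n → ℝ × ℝ} (hP : GP P) (W : Finset ℕ) :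
    (((T P).filter (fun q => lev P q ∈ W)).card : ℝ) ^ 3 ≤ 64 * (n : ℝ) ^ 4 * (W.card : ℝ) ^ 2 := by
  set G := (T P).filter (fun q => lev P q ∈ W) with hG
  rcases W.eq_empty_or_nonempty with hW | hW
  · have : G = ∅ := by
      rw [hG, hW]; simp
    rw [this]; simp
    positivity
  rcases Nat.eq_zero_or_pos n with hn | hn
  · subst hn
    have : G.card = 0 := by
      rw [card_eq_zero, eq_empty_iff_forall_notMem]
      intro q _
      exact q.1.elim0
    rw [this]; simp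
  have hw1 : (1 : ℝ) ≤ W.card := by exact_mod_cast hW.card_pos
  have hn1 : (1 : ℝ) ≤ n := by exact_mod_cast hn
  set w : ℝ := (W.card : ℝ) with hw
  set y : ℝ := 1 / (w ^ 2 * n) with hy
  have hwn : 1 ≤ w ^ 2 * n := by nlinarith
  have hwn0 : 0 < w ^ 2 * n := by linarith
  have hy0 : 0 < y := by positivity
  have hy1 : y ≤ 1 := by rw [hy, div_le_one hwn0]; exact hwn
  set p : ℝ := y ^ (1 / 3 : ℝ) with hp
  have hp0 : 0 < p := Real.rpow_pos_of_pos hy0 _
  have hp1 : p ≤ 1 := Real.rpow_le_one hy0.le hy1 (by norm_num)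
  have hp3 : p ^ 3 = y := by
    rw [hp, ← Real.rpow_natCast, ← Real.rpow_mul hy0.le]
    norm_num
  have hp3' : p ^ 3 * (w ^ 2 * n) = 1 := by
    rw [hp3, hy]; field_simp
  have h1 := sampled hP hp0.le hp1 G (fun e he => (mem_filter.mp he).1)
  have h2 : (((G ×ˢ G).filter (fun q => q.1 ≠ q.2 ∧
      CrossP (P q.1.1) (P q.1.2) (P q.2.1) (P q.2.2))).card : ℝ) ≤ w ^ 2 * n ^ 2 := by
    have a1 := cross_window hP W (K := W.sup id) (fun k hk => le_sup (f := id) hk)
    have a2 : ((G ×ˢ G).filter (fun q => q.1 ≠ q.2 ∧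
      CrossP (P q.1.1) (P q.1.2) (P q.2.1) (P q.2.2))).card ≤
      ((T P ×ˢ T P).filter (fun q => q.1 ≠ q.2 ∧ lev P q.1 ∈ W ∧ lev P q.2 ∈ W ∧
      CrossP (P q.1.1) (P q.1.2) (P q.2.1) (P q.2.2))).card := by
      apply card_le_card
      rintro ⟨e, f⟩ hq
      simp only [hG, mem_filter, mem_product] at hq ⊢
      obtain ⟨⟨⟨b1, b2⟩, ⟨b3, b4⟩⟩, b5, b6⟩ := hq
      exact ⟨⟨b1, b3⟩, b5, b2, b4, b6⟩
    have a3 : 2 * ((T P).filter (fun q => lev P q ≤ W.sup id)).card ≤ n ^ 2 :=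
      (Nat.mul_le_mul_left 2 (card_le_card (filter_subset _ _))).trans (T_card P)
    have a4 := a2.trans (a1.trans (Nat.mul_le_mul_left _ a3))
    rw [hw]
    exact_mod_cast a4
  set g : ℝ := (G.card : ℝ) with hg
  have hg0 : 0 ≤ g := Nat.cast_nonneg _
  have h3 : p ^ 2 * g ≤ 4 * p * n := by
    refine h1.trans ?_
    calc 3 * p * n + p ^ 4 * (((G ×ˢ G).filter (fun q => q.1 ≠ q.2 ∧
      CrossP (P q.1.1) (P q.1.2) (P q.2.1) (P q.2.2))).card : ℝ) ≤
        3 * p * n + p ^ 4 * (w ^ 2 * n ^ 2) := by gcongr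
      _ = 3 * p * n + p * n * (p ^ 3 * (w ^ 2 * n)) := by ring
      _ = 4 * p * n := by rw [hp3']; ring
  have h4 : p * g ≤ 4 * n := by
    have : p * (p * g) ≤ p * (4 * n) := by nlinarith
    exact le_of_mul_le_mul_left this hp0
  have h5 : (p * g) ^ 3 ≤ (4 * n) ^ 3 := pow_le_pow_left₀ (by positivity) h4 3
  calc g ^ 3 = (p * g) ^ 3 * (w ^ 2 * n) := by
        calc g ^ 3 = g ^ 3 * (p ^ 3 * (w ^ 2 * n)) := by rw [hp3', mul_one]
          _ = _ := by ring
    _ ≤ (4 * n) ^ 3 * (w ^ 2 * n) := by gcongr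
    _ = _ := by ring

end Pool.Agent.H189R2.Sub
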